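import Mathlib

/-!
Permutations of `ℤ × Fin 4` that shift the first coordinate by a natural number `m` and change the
second coordinate only if the new first coordinate is in `[0, m]`.
-/

set_option autoImplicit false

namespace Pool.Agent.Q104.RW

/-- the points -/
abbrev Pt : Type := ℤ × Fin 4

/-- the shift -/
def shift : Equiv.Perm Pt where
  toFun p := (p.1 + 1, p.2)
  invFun p := (p.1 - 1, p.2)
  left_inv p := by simp
  right_inv p := by simp

/-- a permutation of the fibre over `0` -/
def lamp (a : Equiv.Perm (Fin 4)) : Equiv.Perm Pt where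
  toFun p := if p.1 = 0 then (p.1, a p.2) else p
  invFun p := if p.1 = 0 then (p.1, a⁻¹ p.2) else p
  left_inv p := by
    by_cases h : p.1 = 0
    · simp [h]
      exact Prod.ext h.symm rfl
    · simp [h]
  right_inv p := by
    by_cases h : p.1 = 0
    · simp [h]
      exact Prod.ext h.symm rfl
    · simp [h]

theorem lamp_mul (a b : Equiv.Perm (Fin 4)) : lamp (a * b) = lamp a * lamp b := by
  apply Equiv.ext
  intro p
  by_cases h : p.1 = 0 <;> simp [lamp, h]

theorem lamp_one : lamp 1 = 1 := by
  apply Equiv.ext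
  intro p
  by_cases h : p.1 = 0 <;> simp [lamp]

/-- `lamp` as a homomorphism -/
def lampHom : Equiv.Perm (Fin 4) →* Equiv.Perm Pt where
  toFun := lamp
  map_one' := lamp_one
  map_mul' := lamp_mul

theorem lamp_zero (a : Equiv.Perm (Fin 4)) (i : Fin 4) : lamp a (0, i) = (0, a i) := by
  simp [lamp]

theorem lamp_inj {a b : Equiv.Perm (Fin 4)} (h : lamp a = lamp b) : a = b := by
  apply Equiv.ext
  intro i
  have h1 := congrArg (fun e : Equiv.Perm Pt => (e (0, i)).2) h
  simpa [lamp_zero] using h1

/-- shift by `m` and changes at the places in `[0, m]` -/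
def Wd (g : Equiv.Perm Pt) (m : ℕ) : Prop :=
  ∀ p : Pt, (g p).1 = p.1 + m ∧ (p.1 + m < 0 ∨ 0 < p.1 → (g p).2 = p.2)

theorem wd_shift : Wd shift 1 := fun p => ⟨by simp [shift], fun _ => rfl⟩

theorem wd_lamp (a : Equiv.Perm (Fin 4)) : Wd (lamp a) 0 := by
  intro p
  by_cases h : p.1 = 0
  · refine ⟨by simp [lamp, h], fun h' => ?_⟩
    exfalso
    rcases h' with h' | h'
    · simp only [Nat.cast_zero, add_zero] at h'
      omega
    · omega
  · simp [lamp, h]

theorem wd_one : Wd 1 0 := by
  intro p
  simp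

theorem Wd.mul {g g' : Equiv.Perm Pt} {m m' : ℕ} (h : Wd g m) (h' : Wd g' m') :
    Wd (g * g') (m + m') := by
  intro p
  obtain ⟨h1, h2⟩ := h' p
  obtain ⟨h3, h4⟩ := h (g' p)
  refine ⟨?_, fun hp => ?_⟩
  · rw [Equiv.Perm.mul_apply, h3, h1]
    push_cast
    ring
  · rw [Equiv.Perm.mul_apply, h4, h2]
    · push_cast at hp
      rcases hp with hp | hp
      · left
        omega
      · right
        exact hp
    · rw [h1]
      push_cast at hp
      rcases hp with hp | hp
      · left
        omega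
      · right
        omega

theorem inv_apply (g : Equiv.Perm Pt) (p : Pt) : g⁻¹ (g p) = p := Equiv.symm_apply_apply g p

/-- the quotient of two such permutations with the same shift -/
theorem quot_fix {g g' : Equiv.Perm Pt} {m : ℕ} (h : Wd g m) (h' : Wd g' m) {p : Pt}
    (hp : p.1 < 0 ∨ (m : ℤ) < p.1) : (g * g'⁻¹) p = p := by
  obtain ⟨q, rfl⟩ := g'.surjective p
  rw [Equiv.Perm.mul_apply, inv_apply]
  obtain ⟨h1, h2⟩ := h' q
  obtain ⟨h3, h4⟩ := h q
  rw [h1] at hp
  have h5 : q.1 + m < 0 ∨ 0 < q.1 := by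
    rcases hp with hp | hp
    · left
      exact hp
    · right
      omega
  exact Prod.ext (h3.trans h1.symm) ((h4 h5).trans (h2 h5).symm)

/-- the commutator, and its conjugate by a large shift, commute -/
theorem comm_of_wd {x y : Equiv.Perm Pt} {m m' : ℕ} (hx : Wd x m) (hy : Wd y m')
    (hM : 0 < m + m') :
    Commute (x * y * (y * x)⁻¹) ((x * y) ^ 2 * (x * y * (y * x)⁻¹) * ((x * y) ^ 2)⁻¹) := by
  have hxy := hx.mul hy
  have hyx : Wd (y * x) (m + m') := by
    rw [add_comm m m']
    exact hy.mul hx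
  have hg : Wd ((x * y) ^ 2) (m + m' + (m + m')) := by
    rw [pow_two]
    exact hxy.mul hxy
  apply Equiv.Perm.Disjoint.commute
  intro p
  by_cases hp : p.1 < 0 ∨ ((m + m' : ℕ) : ℤ) < p.1
  · left
    exact quot_fix hxy hyx hp
  · right
    obtain ⟨q, rfl⟩ := ((x * y) ^ 2).surjective p
    rw [Equiv.Perm.mul_apply, inv_apply, Equiv.Perm.mul_apply,
      quot_fix hxy hyx]
    rw [(hg q).1] at hp
    left
    push_cast at hp
    omega

end Pool.Agent.Q104.RW
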